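import Pool.Agent.Helper65.NX.Goals
import Pool.Agent.Helper94.HC.LSW

/-!
# Packet NW-LSW: the windows form a family computed in linear space
-/

namespace Pool.Agent.Helper65.NX.K61

open Pool.Agent.Helper65.LinSpace Pool.Agent.Helper78.Mpc Pool.Agent.Helper28.Ram
open Pool.Agent.Helper65.NX Finset
open Pool.Agent.Helper28.Long (ZL ZL_le)
open Pool.Agent.Helper65.RT (qT CT ls_qT ls_CT ls_ll)
open Pool.Agent.Helper94.HC (qT_pos qT_le two_pow_le_CT)

theorem lsw_sT_le_q (n T : ℕ) : Pool.Agent.Helper65.NX.sT n T ≤ qT n - 1 :=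
  (min_le_right _ _).trans (min_le_left _ _)

theorem lsw_sT_le_ZL (n T : ℕ) : Pool.Agent.Helper65.NX.sT n T ≤ ZL n :=
  (min_le_right _ _).trans (min_le_right _ _)

theorem lsw_catN_zero (a : ℕ) : catN a 0 = 0 := by
  simp [catN, ifz]

theorem lsw_view_zero (g : ℕ) (d : ℕ → ℕ) (n : ℕ) (h : ∃ i < n, d i = 0) :
    nrec g (fun i u => catN u (sdN (d i))) n = 0 := by
  induction n with
  | zero =>
    obtain ⟨i, hi, -⟩ := h
    omega
  | succ n ih =>
    rw [nrec_succ]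
    by_cases hn : d n = 0
    · have h1 : sdN (d n) = 0 := by rw [hn]; rfl
      rw [h1]
      exact lsw_catN_zero _
    · have h2 : ∃ i < n, d i = 0 := by
        obtain ⟨i, hi, hi0⟩ := h
        refine ⟨i, ?_, hi0⟩
        rcases Nat.lt_succ_iff_lt_or_eq.1 hi with h3 | h3
        · exact h3
        · exact absurd (h3 ▸ hi0) hn
      rw [ih h2]
      rfl

theorem lsw_nxt_zero (P : Prm) : P.nxtN 0 = 0 := by
  have h1 : P.adrN 0 = 0 := rfl
  have h2 : catN 2 0 = 0 := by simp [catN, ifz]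
  unfold Prm.nxtN
  rw [h2, h1]
  simp [capN, ifz, lt01]

theorem lsw_ok (P : Prm) (p c : ℕ) : (P.win p c).Ok := by
  refine ⟨?_, ?_, ?_, ?_, ?_⟩
  · show 0 < Prm.wd p
    unfold Prm.wd
    positivity
  · intro t z i
    show P.inpN p (P.ct c + t) z i < Prm.wd p
    unfold Prm.inpN
    refine Nat.mod_lt _ ?_
    unfold Prm.wd
    positivity
  · intro t z X
    exact capN_lt _ _
  · intro z
    show P.pre p c z < 2 ^ (P.S + 1)
    unfold Prm.pre ifz
    split_ifs
    · exact Nat.one_lt_two_pow (by omega)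
    · exact capN_lt _ _
  · intro t z X h
    show P.nxtN (P.viewN p (P.ct c + t) z X P.dg) = 0
    have h1 : P.viewN p (P.ct c + t) z X P.dg = 0 :=
      lsw_view_zero _ (fun i => dig (2 ^ (P.S + 1)) X i) P.dg h
    rw [h1]
    exact lsw_nxt_zero P

theorem lsw_ll_mul_qT (n : ℕ) : ll n * qT n ≤ 2 * (n + 1) := by
  unfold qT
  have h1 : ll n * (n / ll n) ≤ n := Nat.mul_div_le n (ll n)
  have h2 := ll_le n
  rw [mul_add, mul_one]
  omega

theorem lsw_two_pow_le (x t : ℕ) (h : t ≤ 2 * (Nat.log 2 x + 1)) : 2 ^ t ≤ CT x := by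
  refine (Nat.pow_le_pow_right (by norm_num) h).trans ((two_pow_log_le x 2).trans ?_)
  exact Nat.pow_le_pow_right (by omega) (show 2 * 2 ≤ 4000 by norm_num)

theorem lsw (h : LSP_stmt) : LSW_stmt := by
  intro c₀ α _ e x y T p c he hx hy hT hp hc
  have hVS : ∀ z, ((prm c₀ (e z) (x z) (y z) (T z)).win (p z) (c z)).V *
      ((prm c₀ (e z) (x z) (y z) (T z)).win (p z) (c z)).σ ≤ qT (Nat.log 2 (x z)) := by
    intro z
    show vT (Nat.log 2 (x z)) (T z) * (Pool.Agent.Helper65.NX.sT (Nat.log 2 (x z)) (T z) + 1) ≤ _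
    refine (Nat.mul_le_mul_right _ (min_le_right _ _)).trans ?_
    exact Nat.div_mul_le_self _ _
  have hV1 : ∀ z, ((prm c₀ (e z) (x z) (y z) (T z)).win (p z) (c z)).V ≤
      qT (Nat.log 2 (x z)) := by
    intro z
    show vT (Nat.log 2 (x z)) (T z) ≤ _
    exact (min_le_right _ _).trans (Nat.div_le_self _ _)
  have hσ1 : ∀ z, ((prm c₀ (e z) (x z) (y z) (T z)).win (p z) (c z)).σ ≤
      qT (Nat.log 2 (x z)) := by
    intro z
    show Pool.Agent.Helper65.NX.sT (Nat.log 2 (x z)) (T z) + 1 ≤ _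
    have h1 := qT_pos (Nat.log 2 (x z))
    have h2 := lsw_sT_le_q (Nat.log 2 (x z)) (T z)
    omega
  refine ⟨?_, fun z => ⟨hVS z, hV1 z, hσ1 z, le_rfl⟩⟩
  obtain ⟨-, -, -, -, -, hwd, hS, hV, hB, hK, hdg, -, -⟩ := h c₀ he hx hy hT
  refine
    { σ := LS.add hS (LS.const 1)
      V := hV
      B := hB
      K := hK
      dg := hdg
      Wd := hwd hp
      inp := ?_
      upd := ?_
      ini := ?_
      bd := ls_CT hx
      ok := fun z => lsw_ok _ _ _
      hC1 := fun z => two_pow_le_CT _ _ (((mul_comm _ _).trans_le (hVS z)).trans (qT_le _))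
      hC2 := fun z => ?_
      hC3 := fun z => ?_ }
  · have he' : LS (fun b : α × ℕ × ℕ × ℕ => e b.1) := LS.comp (g := e) he LS.fst
    have hx' : LS (fun b : α × ℕ × ℕ × ℕ => x b.1) := LS.comp (g := x) hx LS.fst
    have hy' : LS (fun b : α × ℕ × ℕ × ℕ => y b.1) := LS.comp (g := y) hy LS.fst
    have hT' : LS (fun b : α × ℕ × ℕ × ℕ => T b.1) := LS.comp (g := T) hT LS.fst
    have hp' : LS (fun b : α × ℕ × ℕ × ℕ => p b.1) := LS.comp (g := p) hp LS.fst
    have hc' : LS (fun b : α × ℕ × ℕ × ℕ => c b.1) := LS.comp (g := c) hc LS.fst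
    obtain ⟨h1, -, -, h2, -⟩ := h c₀ he' hx' hy' hT'
    have i1 : LS (fun b : α × ℕ × ℕ × ℕ => b.2.1) := by fun_prop
    have i2 : LS (fun b : α × ℕ × ℕ × ℕ => b.2.2.1) := by fun_prop
    have i3 : LS (fun b : α × ℕ × ℕ × ℕ => b.2.2.2) := by fun_prop
    exact h1 hp' (LS.add (h2 hc').1 i1) i2 i3
  · have he' : LS (fun b : α × ℕ × ℕ × ℕ => e b.1) := LS.comp (g := e) he LS.fst
    have hx' : LS (fun b : α × ℕ × ℕ × ℕ => x b.1) := LS.comp (g := x) hx LS.fst
    have hy' : LS (fun b : α × ℕ × ℕ × ℕ => y b.1) := LS.comp (g := y) hy LS.fst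
    have hT' : LS (fun b : α × ℕ × ℕ × ℕ => T b.1) := LS.comp (g := T) hT LS.fst
    have hp' : LS (fun b : α × ℕ × ℕ × ℕ => p b.1) := LS.comp (g := p) hp LS.fst
    have hc' : LS (fun b : α × ℕ × ℕ × ℕ => c b.1) := LS.comp (g := c) hc LS.fst
    obtain ⟨-, h1, h3, h2, -⟩ := h c₀ he' hx' hy' hT'
    have i1 : LS (fun b : α × ℕ × ℕ × ℕ => b.2.1) := by fun_prop
    have i2 : LS (fun b : α × ℕ × ℕ × ℕ => b.2.2.1) := by fun_prop
    have i3 : LS (fun b : α × ℕ × ℕ × ℕ => b.2.2.2) := by fun_prop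
    exact h3 (h1 hp' (LS.add (h2 hc').1 i1) i2 i3)
  · have he' : LS (fun b : α × ℕ => e b.1) := LS.comp (g := e) he LS.fst
    have hx' : LS (fun b : α × ℕ => x b.1) := LS.comp (g := x) hx LS.fst
    have hy' : LS (fun b : α × ℕ => y b.1) := LS.comp (g := y) hy LS.fst
    have hT' : LS (fun b : α × ℕ => T b.1) := LS.comp (g := T) hT LS.fst
    have hp' : LS (fun b : α × ℕ => p b.1) := LS.comp (g := p) hp LS.fst
    have hc' : LS (fun b : α × ℕ => c b.1) := LS.comp (g := c) hc LS.fst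
    obtain ⟨-, -, -, -, h1, -⟩ := h c₀ he' hx' hy' hT'
    have i1 : LS (fun b : α × ℕ => b.2) := by fun_prop
    exact (h1 hp' hc' i1).2
  · -- `dg ^ B ≤ CT x`
    show (min (Nat.unpair (e z)).1 (ll (ll (Nat.log 2 (x z))))) ^
      (bT (Nat.log 2 (x z)) (T z)) ≤ CT (x z)
    set n := Nat.log 2 (x z) with hn
    have h1 : bT n (T z) ≤ qT n := (min_le_right _ _).trans ((min_le_right _ _).trans
      (Nat.div_le_self _ _))
    have h2 : min (Nat.unpair (e z)).1 (ll (ll n)) ≤ 2 ^ ll n := by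
      refine (min_le_right _ _).trans ?_
      have h3 : ll (ll n) ≤ ll n + 1 := ll_le (ll n)
      have h4 : ll n + 1 ≤ 2 ^ ll n := Nat.lt_two_pow_self
      exact h3.trans h4
    refine (Nat.pow_le_pow_left h2 _).trans ?_
    rw [← pow_mul]
    refine lsw_two_pow_le _ _ ?_
    refine (Nat.mul_le_mul_left _ h1).trans ?_
    exact lsw_ll_mul_qT n
  · show 2 ^ ((Pool.Agent.Helper65.NX.sT (Nat.log 2 (x z)) (T z) + 1) *
      (min (Nat.unpair (e z)).1 (ll (ll (Nat.log 2 (x z)))))) ≤ CT (x z)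
    set n := Nat.log 2 (x z) with hn
    refine lsw_two_pow_le _ _ ?_
    refine (Nat.mul_le_mul_left _ (min_le_right _ _)).trans ?_
    have h1 : Pool.Agent.Helper65.NX.sT n (T z) * ll (ll n) ≤ LW n := by
      refine (Nat.mul_le_mul_right _ (lsw_sT_le_ZL n (T z))).trans ?_
      exact Nat.div_mul_le_self _ _
    have h2 : LW n ≤ n := Nat.div_le_self _ _
    have h3 : ll (ll n) ≤ n + 2 := (ll_le (ll n)).trans (by have := ll_le n; omega)
    rw [add_mul, one_mul]
    omega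

end Pool.Agent.Helper65.NX.K61
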